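import Pool.Agent.Y740.Z.Stm

/-! Project ZF: algebraic functions at infinity. -/

set_option autoImplicit false

namespace Pool.Agent.Y824.ZF

open Polynomial Pool.Agent.Y740.Z

section

variable {k : Type} [Field k] {V : ValuationSubring (Alg k)}

theorem am_inj (k : Type) [Field k] : Function.Injective (algebraMap k[X] (Alg k)) := by
  rw [IsScalarTower.algebraMap_eq k[X] (RatFunc k) (Alg k)]
  exact (algebraMap (RatFunc k) (Alg k)).injective.comp (IsFractionRing.injective k[X] (RatFunc k))

theorem am_C (c : k) : algebraMap k[X] (Alg k) (C c) = algebraMap k (Alg k) c := by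
  rw [IsScalarTower.algebraMap_apply k k[X] (Alg k), Polynomial.algebraMap_eq]

theorem tr_X (k : Type) [Field k] : Transcendental k (algebraMap k[X] (Alg k) X) :=
  (transcendental_algebraMap_iff (am_inj k)).2 (Polynomial.transcendental_X k)

theorem val_const (hc : ∀ c : k, algebraMap k (Alg k) c ∈ V) {c : k} (h : c ≠ 0) :
    V.valuation (algebraMap k[X] (Alg k) (C c)) = 1 := by
  rw [am_C]
  have h1 : V.valuation (algebraMap k (Alg k) c) ≤ 1 := (V.valuation_le_one_iff _).2 (hc c)
  have h2 : V.valuation (algebraMap k (Alg k) c⁻¹) ≤ 1 := (V.valuation_le_one_iff _).2 (hc c⁻¹)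
  have h3 : V.valuation (algebraMap k (Alg k) c) * V.valuation (algebraMap k (Alg k) c⁻¹) = 1 := by
    rw [← map_mul, ← map_mul, mul_inv_cancel₀ h, map_one, map_one]
  refine le_antisymm h1 ?_
  rw [← h3]
  exact mul_le_of_le_one_right' h2

theorem val_poly (hc : ∀ c : k, algebraMap k (Alg k) c ∈ V)
    (hX : 1 < V.valuation (algebraMap k[X] (Alg k) X)) {P : k[X]} (hP : P ≠ 0) :
    V.valuation (algebraMap k[X] (Alg k) P) =
      V.valuation (algebraMap k[X] (Alg k) X) ^ P.natDegree := by
  classical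
  set q := V.valuation (algebraMap k[X] (Alg k) X) with hq
  have hq0 : 0 < q := zero_lt_one.trans hX
  have hterm : ∀ i, P.coeff i ≠ 0 →
      V.valuation (algebraMap k[X] (Alg k) (C (P.coeff i) * X ^ i)) = q ^ i := by
    intro i hi
    rw [map_mul, map_mul, val_const hc hi, one_mul, map_pow, map_pow]
  have hlast := hterm P.natDegree (leadingCoeff_ne_zero.2 hP)
  conv_lhs => rw [P.as_sum_range_C_mul_X_pow, map_sum]
  rw [← hlast]
  refine V.valuation.map_sum_eq_of_lt (s := Finset.range (P.natDegree + 1))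
    (f := fun i => algebraMap k[X] (Alg k) (C (P.coeff i) * X ^ i)) (j := P.natDegree)
    (Finset.mem_range.2 (Nat.lt_succ_self _)) ?_
  intro i hi
  rw [Finset.mem_sdiff, Finset.mem_range, Finset.mem_singleton] at hi
  rw [hlast]
  by_cases h0 : P.coeff i = 0
  · rw [h0, C_0, zero_mul, map_zero, map_zero]
    exact pow_pos hq0 _
  · rw [hterm i h0]
    exact pow_lt_pow_right₀ hX (by omega)

theorem root_le (hc : ∀ c : k, algebraMap k (Alg k) c ∈ V)
    (hX : 1 < V.valuation (algebraMap k[X] (Alg k) X)) {B : k[X][X]} (hB : B ≠ 0) {κ : ℕ}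
    (hκ : ∀ i, (B.coeff i).natDegree ≤ κ) {η : Alg k}
    (h : B.eval₂ (algebraMap k[X] (Alg k)) η = 0) :
    V.valuation η ≤ V.valuation (algebraMap k[X] (Alg k) X) ^ κ := by
  classical
  set q := V.valuation (algebraMap k[X] (Alg k) X) with hq
  have hq0 : 0 < q := zero_lt_one.trans hX
  by_contra hcon
  rw [not_le] at hcon
  have h1 : 1 < V.valuation η := (one_le_pow₀ hX.le).trans_lt hcon
  have h0 : 0 < V.valuation η := zero_lt_one.trans h1
  have hcf : ∀ i, V.valuation (algebraMap k[X] (Alg k) (B.coeff i)) ≤ q ^ κ := by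
    intro i
    by_cases h2 : B.coeff i = 0
    · rw [h2, map_zero, map_zero]
      exact zero_le
    · rw [val_poly hc hX h2]
      exact pow_le_pow_right₀ hX.le (hκ i)
  have hl : 1 ≤ V.valuation (algebraMap k[X] (Alg k) (B.coeff B.natDegree)) := by
    have h2 : B.coeff B.natDegree ≠ 0 := leadingCoeff_ne_zero.2 hB
    rw [val_poly hc hX h2]
    exact one_le_pow₀ hX.le
  have hlast : V.valuation η ^ B.natDegree ≤
      V.valuation (algebraMap k[X] (Alg k) (B.coeff B.natDegree) * η ^ B.natDegree) := by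
    rw [map_mul, map_pow]
    exact le_mul_of_one_le_left' hl
  have hne : V.valuation (algebraMap k[X] (Alg k) (B.coeff B.natDegree) * η ^ B.natDegree) ≠ 0 :=
    ((pow_pos h0 _).trans_le hlast).ne'
  have h2 := V.valuation.map_sum_eq_of_lt (s := Finset.range (B.natDegree + 1))
    (f := fun i => algebraMap k[X] (Alg k) (B.coeff i) * η ^ i) (j := B.natDegree)
    (Finset.mem_range.2 (Nat.lt_succ_self _)) (by
      intro i hi
      rw [Finset.mem_sdiff, Finset.mem_range, Finset.mem_singleton] at hi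
      have hi' : i + 1 ≤ B.natDegree := by omega
      refine lt_of_lt_of_le ?_ hlast
      refine lt_of_lt_of_le ?_ (pow_le_pow_right₀ h1.le hi')
      rw [map_mul, map_pow, pow_succ']
      refine lt_of_le_of_lt (mul_le_mul_left (hcf i) _) ?_
      exact mul_lt_mul_of_pos_right hcon (pow_pos h0 _))
  rw [eval₂_eq_sum_range] at h
  rw [h, map_zero] at h2
  exact hne h2.symm

end

theorem t_INF : S_PL → S_INF := by
  classical
  intro hPL k _ _ _ ι _ A hA
  have ht : Transcendental k (algebraMap k[X] (Alg k) X)⁻¹ := fun h =>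
    tr_X k (IsAlgebraic.inv_iff.1 h)
  obtain ⟨V, hc, hV⟩ := hPL k (Alg k) _ ht
  have hX0 : (algebraMap k[X] (Alg k) X) ≠ 0 := fun h =>
    X_ne_zero (am_inj k (h.trans (map_zero _).symm))
  have hX : 1 < V.valuation (algebraMap k[X] (Alg k) X) := by
    rw [map_inv₀] at hV
    exact (inv_lt_one₀ (zero_lt_iff.2 (V.valuation.ne_zero_iff.2 hX0))).1 hV
  refine ⟨V, ∑ l, ∑ i ∈ Finset.range ((A l).natDegree + 1), ((A l).coeff i).natDegree, hX,
    fun P hP => val_poly hc hX hP, fun l η hη => ?_⟩
  have hκ : ∀ i, ((A l).coeff i).natDegree ≤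
      ∑ l, ∑ i ∈ Finset.range ((A l).natDegree + 1), ((A l).coeff i).natDegree := by
    intro i
    by_cases hi : i ∈ Finset.range ((A l).natDegree + 1)
    · refine le_trans ?_ (Finset.single_le_sum
        (f := fun l => ∑ i ∈ Finset.range ((A l).natDegree + 1), ((A l).coeff i).natDegree)
        (fun _ _ => Nat.zero_le _) (Finset.mem_univ l))
      exact Finset.single_le_sum (f := fun i => ((A l).coeff i).natDegree)
        (fun _ _ => Nat.zero_le _) hi
    · rw [coeff_eq_zero_of_natDegree_lt (by rw [Finset.mem_range] at hi; omega), natDegree_zero]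
      exact Nat.zero_le _
  have hAl : A l ≠ 0 := fun h => hA l (by rw [h, coeff_zero])
  have hη0 : η ≠ 0 := by
    rintro rfl
    unfold IsRt at hη
    rw [eval₂_at_zero] at hη
    exact hA l (am_inj k (hη.trans (map_zero _).symm))
  refine ⟨hη0, root_le hc hX hAl hκ hη, ?_⟩
  have hinv : Invertible η := invertibleOfNonzero hη0
  have h1 : (A l).reverse.eval₂ (algebraMap k[X] (Alg k)) η⁻¹ = 0 := by
    have h2 := (eval₂_reverse_eq_zero_iff (algebraMap k[X] (Alg k)) η (A l)).2 hη
    rwa [invOf_eq_inv] at h2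
  refine root_le hc hX (by rwa [Ne, reverse_eq_zero]) (fun i => ?_) h1
  rw [coeff_reverse]
  exact hκ _

end Pool.Agent.Y824.ZF
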